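import Mathlib
import Pool.Agent.H282R3.FP.Stmts

/-!
# Task FP-Decide of the project H282FP (MP_0d317a_lc)
-/

set_option autoImplicit false

namespace Pool.Agent.H282R3.FP

open Set

theorem Works.split {W : Type} [LinearOrder W] {C : W → Set ℕ} {d : W} {E : Set W} {A : Set ℕ}
    (h : Works C d E A) (Z : Set ℕ) : Works C d E (A ∩ Z) ∨ Works C d E (A \ Z) := by
  classical
  by_contra hcon
  rw [not_or] at hcon
  obtain ⟨h1, h2⟩ := hcon
  unfold Works at h1 h2
  simp only [not_forall] at h1 h2
  obtain ⟨t, ht, h1⟩ := h1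
  obtain ⟨t', ht', h2⟩ := h2
  rw [not_infinite] at h1 h2
  have h3 := h (t ∪ t') (by
    intro x hx
    rcases Finset.mem_union.1 hx with hx | hx
    · exact ht x hx
    · exact ht' x hx)
  apply h3
  refine (h1.union h2).subset ?_
  rintro n ⟨hA, hn⟩
  simp only [mem_iInter] at hn
  by_cases hZ : n ∈ Z
  · left
    refine ⟨⟨hA, hZ⟩, ?_⟩
    simp only [mem_iInter]
    exact fun x hx => hn x (Finset.mem_union_left _ hx)
  · right
    refine ⟨⟨hA, hZ⟩, ?_⟩
    simp only [mem_iInter]
    exact fun x hx => hn x (Finset.mem_union_right _ hx)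

/-- Pass to a subsequence of columns and shrink them, on the side `b`. -/
theorem exists_shrink {W : Type} [LinearOrder W] (p : Cond W) (b : Bool) (f : ℕ → ℕ)
    (hf : ∀ m, m ≤ f m) (A' : ℕ → Set ℕ) (hA' : ∀ m, A' m ⊆ p.A b (f m))
    (hw : ∀ m, Works (p.C b) p.d (p.E b (f m)) (A' m)) : ∃ q ≤ p, q.A b = A' := by
  classical
  refine ⟨{ d := p.d
            s := p.s
            C := p.C
            Y := fun c => if c = b then p.Y b ∪ range A' else p.Y c
            A := fun c n => if c = b then A' n else p.A c n
            E := fun c n => if c = b then p.E b (f n) else p.E c n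
            hY := ?_
            hA := ?_
            hE := ?_
            hs := ?_
            hw := ?_
            hC := ?_ }, ?_, ?_⟩
  · intro c
    by_cases hc : c = b
    · subst hc
      simpa using (p.hY c).union (countable_range A')
    · simpa [hc] using p.hY c
  · intro c n
    by_cases hc : c = b
    · subst hc
      simp
    · simpa [hc] using p.hA c n
  · intro c n
    by_cases hc : c = b
    · subst hc
      simpa using p.hE c (f n)
    · simpa [hc] using p.hE c n
  · intro c n
    by_cases hc : c = b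
    · subst hc
      simpa using p.hs c (f n)
    · simpa [hc] using p.hs c n
  · intro c n
    by_cases hc : c = b
    · subst hc
      simpa using hw n
    · simpa [hc] using p.hw c n
  · intro c x hx
    obtain ⟨N, hN⟩ := p.hC c x hx
    by_cases hc : c = b
    · subst hc
      refine ⟨N, fun n hn => ?_⟩
      simp only [if_true]
      exact (hN (f n) (hn.trans (hf n))).subset (inter_subset_inter_left _ (hA' n))
    · refine ⟨N, fun n hn => ?_⟩
      simp only [hc, if_false]
      exact hN n hn
  · refine Cond.le_def.2 ⟨le_rfl, fun _ _ => rfl, fun _ _ _ => rfl, ?_, ?_, ?_⟩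
    · intro c
      by_cases hc : c = b
      · subst hc
        simp
      · simp [hc]
    · intro c A _ E hE
      exact hE
    · intro c k
      by_cases hc : c = b
      · subst hc
        refine ⟨k, fun m hm => ⟨f m, hm.trans (hf m), ?_⟩⟩
        simp only [Cond.col, if_true]
        refine ⟨?_, inter_eq_left.2 (p.hE c (f m))⟩
        have : A' m \ p.A c (f m) = ∅ := diff_eq_empty.2 (hA' m)
        show (A' m \ p.A c (f m)).Finite
        rw [this]
        exact finite_empty
      · refine ⟨k, fun m hm => ⟨m, hm, ?_⟩⟩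
        simp only [Cond.col, hc, if_false]
        refine ⟨by simp, inter_eq_left.2 (p.hE c m)⟩
  · funext n
    simp

/-- TASK Decide. -/
theorem taskDecide {W : Type} [LinearOrder W] : TaskDecide W := by
  classical
  intro p b Z
  by_cases hinf : {n | Works (p.C b) p.d (p.E b n) (p.A b n ∩ Z)}.Infinite
  · have h : ∀ m, ∃ n ≥ m, Works (p.C b) p.d (p.E b n) (p.A b n ∩ Z) := by
      intro m
      obtain ⟨n, hn, hmn⟩ := hinf.exists_gt m
      exact ⟨n, hmn.le, hn⟩
    choose f hf1 hf2 using h
    obtain ⟨q, hq, hqA⟩ := exists_shrink p b f hf1 (fun m => p.A b (f m) ∩ Z)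
      (fun m => inter_subset_left) hf2
    refine ⟨q, hq, Or.inl ⟨0, fun n _ => ?_⟩⟩
    rw [hqA]
    have : (p.A b (f n) ∩ Z) \ Z = ∅ := diff_eq_empty.2 inter_subset_right
    show ((p.A b (f n) ∩ Z) \ Z).Finite
    rw [this]
    exact finite_empty
  · rw [not_infinite] at hinf
    have h : ∀ m, ∃ n ≥ m, Works (p.C b) p.d (p.E b n) (p.A b n \ Z) := by
      intro m
      obtain ⟨M, hM⟩ := hinf.bddAbove
      refine ⟨max m (M + 1), le_max_left _ _, ?_⟩
      rcases (p.hw b (max m (M + 1))).split Z with h1 | h1
      · have := hM h1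
        omega
      · exact h1
    choose f hf1 hf2 using h
    obtain ⟨q, hq, hqA⟩ := exists_shrink p b f hf1 (fun m => p.A b (f m) \ Z)
      (fun m => diff_subset) hf2
    refine ⟨q, hq, Or.inr ⟨0, fun n _ => ?_⟩⟩
    rw [hqA]
    have : (p.A b (f n) \ Z) \ Zᶜ = ∅ := diff_eq_empty.2 (fun x hx => hx.2)
    show ((p.A b (f n) \ Z) \ Zᶜ).Finite
    rw [this]
    exact finite_empty

end Pool.Agent.H282R3.FP
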